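import Pool.Agent.X123.ML.Abc
import Pool.Agent.W221.ABC.Main7

/-!
# abc triples and the convergents of a real number

An abc triple `(a, b, c)` gives the rational number `a / c` between `0` and `1`. We consider the
real numbers `ξ` which have infinitely many approximations `|ξ - a / c| ≤ c ^ (-τ)`, or infinitely
many convergents `a / c`, that come from abc triples with `R(abc) ≤ B c ^ lam`, and bound the
Hausdorff dimension of their set from both sides, with equality for `2 ≤ lam ≤ 3`.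
-/

set_option autoImplicit false

namespace Pool.Agent.Results.MP_7aad9f_nt.ConvergentsOfRealNumbers

/-- the radical -/
def R (m : ℕ) : ℕ := ∏ p ∈ m.primeFactors, p

/-- `t = (a, b, c)` with coprime positive integers `a`, `b`, `c` and `a + b = c` -/
def IsTriple (t : ℕ × ℕ × ℕ) : Prop :=
  0 < t.1 ∧ 0 < t.2.1 ∧ Nat.Coprime t.1 t.2.1 ∧ t.1 + t.2.1 = t.2.2

/-- `t = (a, b, c)` is an abc triple with `R (abc) ≤ B * c ^ lam` -/
def Small (B lam : ℝ) (t : ℕ × ℕ × ℕ) : Prop :=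
  IsTriple t ∧ (R (t.1 * t.2.1 * t.2.2) : ℝ) ≤ B * (t.2.2 : ℝ) ^ lam

/-- The real numbers `ξ` for which there are infinitely many abc triples `(a, b, c)` with
`R (abc) ≤ B * c ^ lam` and `|ξ - a / c| ≤ c ^ (-τ)`. -/
def Near (B lam τ : ℝ) : Set ℝ :=
  {ξ | {t : ℕ × ℕ × ℕ | Small B lam t ∧ |ξ - (t.1 : ℝ) / t.2.2| ≤ (t.2.2 : ℝ) ^ (-τ)}.Infinite}

/-- The real numbers `ξ` for which there are infinitely many abc triples `(a, b, c)` with
`R (abc) ≤ B * c ^ lam` such that `a / c` is a convergent of the continued fraction of `ξ`. -/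
def Conv (B lam : ℝ) : Set ℝ :=
  {ξ | {t : ℕ × ℕ × ℕ | Small B lam t ∧ ∃ n : ℕ, ξ.convergent n = (t.1 : ℚ) / t.2.2}.Infinite}

/-- the exponent, a continuous piecewise linear function with `F 1 = 15 / 28` and
`F lam = lam - 1` for `lam ≥ 2` -/
noncomputable def F (lam : ℝ) : ℝ :=
  if lam ≤ 2 / 3 then 4 * lam / 7
  else if lam ≤ 1 then (13 * lam + 2) / 28
  else if lam ≤ 3 / 2 then 5 * (10 * lam - 1) / 84
  else if lam ≤ 16 / 9 then (9 * lam - 1) / 15
  else if lam ≤ 2 then 1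
  else lam - 1

theorem F_nonneg {lam : ℝ} (h : 0 < lam) : 0 ≤ F lam := by
  unfold F
  split_ifs <;> linarith

theorem F_ge_two {lam : ℝ} (h : 2 ≤ lam) : F lam = lam - 1 := by
  unfold F
  rw [if_neg (by linarith), if_neg (by linarith), if_neg (by linarith), if_neg (by linarith)]
  split_ifs with h1
  · linarith
  · rfl

theorem near_le (B lam τ : ℝ) (hlam : 0 < lam) (hτ : 0 < τ) :
    dimH (Near B lam τ) ≤ ENNReal.ofReal (F lam / τ) := by
  refine Pool.Agent.X123.ML.Abc.upper_near (F := F) B lam τ hτ (F_nonneg hlam) fun δ hδ => ?_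
  obtain ⟨C, hC⟩ := Pool.Agent.W221.ABC7.count_FxB B lam δ hlam hδ
  refine ⟨C, fun X hX => ?_⟩
  have e : {t : ℕ × ℕ × ℕ | Pool.Agent.X123.ML.Abc.Small B lam t ∧ t.2.2 ≤ X} =
      Pool.Agent.W221.ABC7.ExcB B lam X := by
    ext t
    constructor
    · rintro ⟨⟨⟨h1, h2, h3, h4⟩, h5⟩, h6⟩
      exact ⟨h1, h2, h3, h4, h6, h5⟩
    · rintro ⟨h1, h2, h3, h4, h6, h5⟩
      exact ⟨⟨⟨h1, h2, h3, h4⟩, h5⟩, h6⟩
  rw [e]
  exact ⟨Pool.Agent.W221.ABC7.excB_finite B lam X, hC X hX⟩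

theorem conv_le (B lam : ℝ) (hlam : 0 < lam) :
    dimH (Conv B lam) ≤ ENNReal.ofReal (F lam / 2) := by
  refine (dimH_mono (Pool.Agent.X123.ML.Abc.conv_subset B lam)).trans ?_
  rw [dimH_union, (Set.countable_range ((↑) : ℚ → ℝ)).dimH_zero]
  simp only [max_zero]
  exact near_le B lam 2 hlam (by norm_num)

/-- * Let `1 < lam ≤ 3`, `B > 0`, `τ > 0`, and let `J` be an open set which meets the interval
  `(0, 1)`. The set of the `ξ ∈ J` with infinitely many approximations `|ξ - a / c| ≤ c ^ (-τ)` by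
  abc triples with `R (abc) ≤ B c ^ lam` has Hausdorff dimension at least
  `min (1, (lam - 1) / τ)`, and the set of the `ξ ∈ J` with infinitely many convergents `a / c` of
  this kind has dimension at least `(lam - 1) / 2`.
* For all `lam > 0` and all real `B` the dimension of the first set (even without `J`) is at most
  `F lam / τ`, that of the second set is at most `F lam / 2`. For `lam = 1` the second bound is
  `15 / 56`.
* For `2 ≤ lam ≤ 3` the lower bounds of the first part are the exact values. -/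
theorem result :
    (∀ B lam : ℝ, 0 < B → 1 < lam → lam ≤ 3 → ∀ J : Set ℝ, IsOpen J →
      (J ∩ Set.Ioo 0 1).Nonempty →
      (∀ τ : ℝ, 0 < τ → ENNReal.ofReal (min 1 ((lam - 1) / τ)) ≤ dimH (Near B lam τ ∩ J)) ∧
      ENNReal.ofReal ((lam - 1) / 2) ≤ dimH (Conv B lam ∩ J)) ∧
    (∀ B lam : ℝ, 0 < lam →
      (∀ τ : ℝ, 0 < τ → dimH (Near B lam τ) ≤ ENNReal.ofReal (F lam / τ)) ∧
      dimH (Conv B lam) ≤ ENNReal.ofReal (F lam / 2)) ∧
    (∀ B lam : ℝ, 0 < B → 2 ≤ lam → lam ≤ 3 → ∀ J : Set ℝ, IsOpen J →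
      (J ∩ Set.Ioo 0 1).Nonempty →
      (∀ τ : ℝ, 0 < τ → dimH (Near B lam τ ∩ J) = ENNReal.ofReal (min 1 ((lam - 1) / τ))) ∧
      dimH (Conv B lam ∩ J) = ENNReal.ofReal ((lam - 1) / 2)) := by
  have hlow : ∀ B lam : ℝ, 0 < B → 1 < lam → lam ≤ 3 → ∀ J : Set ℝ, IsOpen J →
      (J ∩ Set.Ioo 0 1).Nonempty →
      (∀ τ : ℝ, 0 < τ → ENNReal.ofReal (min 1 ((lam - 1) / τ)) ≤ dimH (Near B lam τ ∩ J)) ∧
      ENNReal.ofReal ((lam - 1) / 2) ≤ dimH (Conv B lam ∩ J) :=
    fun B lam hB h1 h3 J hJ hJ2 =>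
      ⟨fun τ hτ => Pool.Agent.X123.ML.Abc.lower_near hB h1 h3 hτ J hJ hJ2,
        Pool.Agent.X123.ML.Abc.lower_conv hB h1 h3 J hJ hJ2⟩
  refine ⟨hlow, fun B lam hlam => ⟨fun τ hτ => near_le B lam τ hlam hτ, conv_le B lam hlam⟩, ?_⟩
  intro B lam hB h2 h3 J hJ hJ2
  obtain ⟨g1, g2⟩ := hlow B lam hB (by linarith) h3 J hJ hJ2
  refine ⟨fun τ hτ => le_antisymm ?_ (g1 τ hτ), le_antisymm ?_ g2⟩
  · rw [ENNReal.ofReal_min]
    refine le_min ?_ ?_
    · rw [ENNReal.ofReal_one]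
      refine (dimH_mono (Set.subset_univ _)).trans ?_
      rw [Real.dimH_univ]
    · rw [← F_ge_two h2]
      exact (dimH_mono Set.inter_subset_left).trans (near_le B lam τ (by linarith) hτ)
  · rw [← F_ge_two h2]
    exact (dimH_mono Set.inter_subset_left).trans (conv_le B lam (by linarith))

end Pool.Agent.Results.MP_7aad9f_nt.ConvergentsOfRealNumbers
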