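import Mathlib
import Pool.Agent.Results.MP_2ec8a3_nt.RadicalSet
import Pool.Agent.Results.MP_7aad9f_nt.ExceptionsEveryExponent
import Pool.Agent.Y854.GM.Win

/-!
# The abc conjecture without exceptions in windows of heights and in windows of radicals

Let `v ≥ 1` be a sequence with exponent of convergence at most `τ` (for `v_n = n ^ a` this is `1 / a`,
for `v_n = b ^ n` it is `0`) and `θ < 1`.

Heights: for all `α > 0` outside a set of Hausdorff dimension at most `(F(λ) + τ) / (1 - θ)`, for all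
but finitely many `n`, ALL coprime triples `a + b = c` with `|c - α v_n| ≤ v_n ^ θ` have
`R(abc) > B c ^ λ`; `F` is a piecewise linear function, `F(1) = 15 / 28` and `F(λ) < 1` for
`λ < 16 / 9`. So for `v_n = 2 ^ n` and almost all `α` the abc inequality, with `ε = 0` and with each
constant, has no exceptions `c` in windows of length `c ^ θ`, `θ < 13 / 28`, around `α 2 ^ n`, and the
windows may have every length `c ^ θ`, `θ < 1`, if `λ` is small: for all `α > 0` outside a set of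
dimension at most `τ / (1 - θ)` there is `λ > 0` such that `R(abc) > c ^ λ` for all triples with `c` in
the windows, `n ≥ n₀`.

Radicals: for every `M > 1 / 3` there is `ν > 0` such that for all `α > 0` outside a set of Hausdorff
dimension at most `(2 / 3 - ν + τ) / (1 - θ)`, for all but finitely many `n`, each radical `R` of a
coprime triple, of whatever height, with `|R - α v_n| ≤ v_n ^ θ` is the radical of ONE triple
only, and this triple satisfies Oesterlé's inequality `c < R ^ M`. There are `κ X ^ (2 / 3)` radicals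
`≤ X`; so windows of length `v_n ^ θ`, `1 / 3 < θ < 1 / 3 + ν`, contain many radicals on average,
but no exceptions.
-/

set_option autoImplicit false

namespace Pool.Agent.Results.MP_7aad9f_nt.NoExceptionsInWindows

open MeasureTheory

/-- the radical: the product of the distinct primes dividing `m` -/
def R (m : ℕ) : ℕ := ∏ p ∈ m.primeFactors, p

/-- the exponent of convergence of the sequence `v` is at most `τ` -/
def ExpLe (v : ℕ → ℝ) (τ : ℝ) : Prop := ∀ t : ℝ, τ < t → Summable (fun n : ℕ => (v n) ^ (-t))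

/-- `a`, `b`, `c` are coprime positive integers with `a + b = c` -/
def IsTriple (a b c : ℕ) : Prop := 0 < a ∧ 0 < b ∧ Nat.Coprime a b ∧ a + b = c

/-- the exponent -/
noncomputable def F (lam : ℝ) : ℝ :=
  if lam ≤ 2 / 3 then 4 * lam / 7
  else if lam ≤ 1 then (13 * lam + 2) / 28
  else if lam ≤ 3 / 2 then 5 * (10 * lam - 1) / 84
  else if lam ≤ 16 / 9 then (9 * lam - 1) / 15
  else if lam ≤ 2 then 1
  else lam - 1

theorem F_nonneg {lam : ℝ} (h : 0 < lam) : 0 ≤ F lam := by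
  unfold F
  split_ifs <;> linarith

/-- windows of heights, one constant -/
theorem heights (lam B : ℝ) (hlam : 0 < lam) {v : ℕ → ℝ} {τ θ : ℝ} (hv : ∀ n, 1 ≤ v n)
    (hτ : 0 ≤ τ) (hE : ExpLe v τ) (hθ : θ < 1) :
    ∃ E : Set ℝ, dimH E ≤ ENNReal.ofReal ((F lam + τ) / (1 - θ)) ∧ ∀ α : ℝ, 0 < α → α ∉ E →
      ∃ n₀ : ℕ, ∀ n : ℕ, n₀ ≤ n → ∀ a b c : ℕ, IsTriple a b c → |(c : ℝ) - α * v n| ≤ (v n) ^ θ →
        B * (c : ℝ) ^ lam < R (a * b * c) := by
  obtain ⟨E, h1, h2⟩ := Pool.Agent.Y854.GM.windows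
    {t : ℕ × ℕ × ℕ | IsTriple t.1 t.2.1 t.2.2 ∧
      (R (t.1 * t.2.1 * t.2.2) : ℝ) ≤ B * (t.2.2 : ℝ) ^ lam} (fun t => (t.2.2 : ℝ)) (θ := θ) hv hτ
    hE (F_nonneg hlam) hθ (fun ε hε => by
      obtain ⟨C, hC⟩ := Pool.Agent.Results.MP_7aad9f_nt.ExceptionsEveryExponent.result lam B ε
        hlam hε
      refine ⟨|C|, fun X hX => ?_⟩
      have hX1 : 1 ≤ ⌊X⌋₊ := Nat.le_floor (by exact_mod_cast hX)
      obtain ⟨h3, h4⟩ := hC ⌊X⌋₊ hX1
      have hsub : {t | t ∈ {t : ℕ × ℕ × ℕ | IsTriple t.1 t.2.1 t.2.2 ∧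
          (R (t.1 * t.2.1 * t.2.2) : ℝ) ≤ B * (t.2.2 : ℝ) ^ lam} ∧ (t.2.2 : ℝ) ≤ X} ⊆
          Pool.Agent.Results.MP_7aad9f_nt.ExceptionsEveryExponent.Exceptions B lam ⌊X⌋₊ := by
        rintro t ⟨⟨⟨a1, a2, a3, a4⟩, a5⟩, a6⟩
        exact ⟨a1, a2, a3, a4, Nat.le_floor a6, a5⟩
      refine ⟨h3.subset hsub, ?_⟩
      have h5 : (({t | t ∈ {t : ℕ × ℕ × ℕ | IsTriple t.1 t.2.1 t.2.2 ∧
          (R (t.1 * t.2.1 * t.2.2) : ℝ) ≤ B * (t.2.2 : ℝ) ^ lam} ∧ (t.2.2 : ℝ) ≤ X}.ncard : ℕ) :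
            ℝ) ≤ C * ((⌊X⌋₊ : ℕ) : ℝ) ^ (F lam + ε) := by
        refine le_trans ?_ h4
        exact_mod_cast Set.ncard_le_ncard hsub h3
      refine h5.trans ?_
      have hF := F_nonneg hlam
      calc C * ((⌊X⌋₊ : ℕ) : ℝ) ^ (F lam + ε) ≤ |C| * ((⌊X⌋₊ : ℕ) : ℝ) ^ (F lam + ε) :=
            mul_le_mul_of_nonneg_right (le_abs_self C) (by positivity)
        _ ≤ |C| * X ^ (F lam + ε) := mul_le_mul_of_nonneg_left
            (Real.rpow_le_rpow (Nat.cast_nonneg _) (Nat.floor_le (by linarith)) (by positivity))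
            (abs_nonneg C))
  refine ⟨E, h1, fun α hα hαE => ?_⟩
  obtain ⟨n₀, hn⟩ := h2 α hα hαE
  refine ⟨n₀, fun n hn1 a b c ht hw => ?_⟩
  by_contra hcon
  push Not at hcon
  exact absurd (hn n hn1 (a, b, c) ⟨ht, hcon⟩) (not_lt.2 hw)

/-- **Theorem.** Let `v ≥ 1` be a sequence of exponent of convergence at most `τ ≥ 0`, `θ < 1`.

1. For every `λ > 0` there is a set `E` of Hausdorff dimension at most `(F(λ) + τ) / (1 - θ)` such that
for each `α > 0` outside `E` and each `B`, for all but finitely many `n`, ALL triples `a + b = c` of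
coprime positive integers with `|c - α v_n| ≤ v_n ^ θ` satisfy `R(abc) > B c ^ λ`.

2. There is a set `E` of dimension at most `τ / (1 - θ)` such that for each `α > 0` outside `E` there is
`λ > 0` with this property.

3. For every `M > 1 / 3` there is `ν > 0`, independent of `v`, `τ`, `θ`, and a set `E` of dimension at
most `(2 / 3 - ν + τ) / (1 - θ)` such that for each `α > 0` outside `E`, for all but finitely many
`n`, ALL triples `a + b = c` of coprime positive integers, `a ≤ b`, of whatever height, with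
`|R(abc) - α v_n| ≤ v_n ^ θ` satisfy `c < R(abc) ^ M`, and are determined by `R(abc)`.

4. The sequences `v_n = (n + 1) ^ a` and `v_n = b ^ n` have exponent of convergence at most `1 / a`
and `0`. -/
theorem result :
    (∀ (v : ℕ → ℝ) (τ θ lam : ℝ), (∀ n, 1 ≤ v n) → 0 ≤ τ → ExpLe v τ → θ < 1 → 0 < lam →
      ∃ E : Set ℝ, dimH E ≤ ENNReal.ofReal ((F lam + τ) / (1 - θ)) ∧
        ∀ α : ℝ, 0 < α → α ∉ E → ∀ B : ℝ, ∃ n₀ : ℕ, ∀ n : ℕ, n₀ ≤ n → ∀ a b c : ℕ,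
          IsTriple a b c → |(c : ℝ) - α * v n| ≤ (v n) ^ θ → B * (c : ℝ) ^ lam < R (a * b * c)) ∧
    (∀ (v : ℕ → ℝ) (τ θ : ℝ), (∀ n, 1 ≤ v n) → 0 ≤ τ → ExpLe v τ → θ < 1 →
      ∃ E : Set ℝ, dimH E ≤ ENNReal.ofReal (τ / (1 - θ)) ∧
        ∀ α : ℝ, 0 < α → α ∉ E → ∃ lam : ℝ, 0 < lam ∧ ∀ B : ℝ, ∃ n₀ : ℕ, ∀ n : ℕ, n₀ ≤ n →
          ∀ a b c : ℕ, IsTriple a b c → |(c : ℝ) - α * v n| ≤ (v n) ^ θ →
            B * (c : ℝ) ^ lam < R (a * b * c)) ∧
    (∀ M : ℝ, 1 / 3 < M → ∃ ν : ℝ, 0 < ν ∧ ν ≤ 2 / 3 ∧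
      ∀ (v : ℕ → ℝ) (τ θ : ℝ), (∀ n, 1 ≤ v n) → 0 ≤ τ → ExpLe v τ → θ < 1 →
      ∃ E : Set ℝ, dimH E ≤ ENNReal.ofReal ((2 / 3 - ν + τ) / (1 - θ)) ∧
        ∀ α : ℝ, 0 < α → α ∉ E → ∃ n₀ : ℕ, ∀ n : ℕ, n₀ ≤ n → ∀ a b c : ℕ,
          IsTriple a b c → a ≤ b → |(R (a * b * c) : ℝ) - α * v n| ≤ (v n) ^ θ →
            (c : ℝ) < (R (a * b * c) : ℝ) ^ M ∧
            ∀ a' b' c' : ℕ, IsTriple a' b' c' → a' ≤ b' → R (a' * b' * c') = R (a * b * c) →
              a' = a ∧ b' = b ∧ c' = c) ∧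
    (∀ a : ℝ, 0 < a → ExpLe (fun n : ℕ => ((n : ℝ) + 1) ^ a) (1 / a)) ∧
    (∀ b : ℝ, 1 < b → ExpLe (fun n : ℕ => b ^ n) 0) := by
  have main1 : ∀ (v : ℕ → ℝ) (τ θ lam : ℝ), (∀ n, 1 ≤ v n) → 0 ≤ τ → ExpLe v τ → θ < 1 → 0 < lam →
      ∃ E : Set ℝ, dimH E ≤ ENNReal.ofReal ((F lam + τ) / (1 - θ)) ∧
        ∀ α : ℝ, 0 < α → α ∉ E → ∀ B : ℝ, ∃ n₀ : ℕ, ∀ n : ℕ, n₀ ≤ n → ∀ a b c : ℕ,
          IsTriple a b c → |(c : ℝ) - α * v n| ≤ (v n) ^ θ → B * (c : ℝ) ^ lam < R (a * b * c) := by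
    intro v τ θ lam hv hτ hE hθ hlam
    choose E hE1 hE2 using fun k : ℕ => heights lam (k : ℝ) hlam hv hτ hE hθ
    refine ⟨⋃ k, E k, ?_, fun α hα hαE B => ?_⟩
    · rw [dimH_iUnion]
      exact iSup_le hE1
    · obtain ⟨k, hk⟩ := exists_nat_ge B
      obtain ⟨n₀, hn⟩ := hE2 k α hα (fun h => hαE (Set.mem_iUnion.2 ⟨k, h⟩))
      refine ⟨n₀, fun n hn1 a b c ht hw => lt_of_le_of_lt ?_ (hn n hn1 a b c ht hw)⟩
      exact mul_le_mul_of_nonneg_right hk (by positivity)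
  refine ⟨main1, fun v τ θ hv hτ hE hθ => ?_, fun M hM => ?_,
    fun κ hκ => Pool.Agent.Y854.GM.expLe_pow κ hκ, fun b hb => Pool.Agent.Y854.GM.expLe_geom b hb⟩
  · choose E hE1 hE2 using fun k : ℕ => main1 v τ θ (1 / ((k : ℝ) + 2)) hv hτ hE hθ (by positivity)
    refine ⟨⋂ k, E k, ?_, fun α hα hαE => ?_⟩
    · have h1 : ∀ k : ℕ, dimH (⋂ k, E k) ≤
          ENNReal.ofReal ((4 / 7 * (1 / ((k : ℝ) + 2)) + τ) / (1 - θ)) := by
        intro k
        refine (dimH_mono (Set.iInter_subset E k)).trans ((hE1 k).trans (le_of_eq ?_))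
        have h2 : F (1 / ((k : ℝ) + 2)) = 4 / 7 * (1 / ((k : ℝ) + 2)) := by
          unfold F
          rw [if_pos]
          · ring
          · rw [div_le_div_iff₀ (by positivity) (by norm_num)]
            have : (0 : ℝ) ≤ k := Nat.cast_nonneg k
            linarith
        rw [h2]
      have h3 : Filter.Tendsto (fun k : ℕ => ENNReal.ofReal
          ((4 / 7 * (1 / ((k : ℝ) + 2)) + τ) / (1 - θ))) Filter.atTop
          (nhds (ENNReal.ofReal (τ / (1 - θ)))) := by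
        apply ENNReal.tendsto_ofReal
        have h4 : Filter.Tendsto (fun k : ℕ => (1 : ℝ) / ((k : ℝ) + 2)) Filter.atTop
            (nhds 0) := by
          refine Filter.Tendsto.div_atTop tendsto_const_nhds ?_
          exact Filter.tendsto_atTop_add_const_right _ _ tendsto_natCast_atTop_atTop
        have h5 := ((h4.const_mul (4 / 7)).add_const τ).div_const (1 - θ)
        simpa using h5
      exact ge_of_tendsto' h3 h1
    · rw [Set.mem_iInter] at hαE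
      push Not at hαE
      obtain ⟨k, hk⟩ := hαE
      exact ⟨1 / ((k : ℝ) + 2), by positivity, hE2 k α hα hk⟩
  · obtain ⟨ν, C, hν, hC, h⟩ :=
      Pool.Agent.Results.MP_2ec8a3_nt.RadicalSet.result.2.2 M hM
    refine ⟨min ν (2 / 3), lt_min hν (by norm_num), min_le_right _ _,
      fun v τ θ hv hτ hE hθ => ?_⟩
    have hcount : ∀ ε : ℝ, 0 < ε → ∃ C : ℝ, ∀ X : ℝ, 1 ≤ X →
        {r | r ∈ {r : ℕ | (∃ t, Pool.Agent.Results.MP_2ec8a3_nt.RadicalSet.IsTriple t ∧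
          Pool.Agent.Results.MP_2ec8a3_nt.RadicalSet.rad3 t = r) ∧
          ¬ Pool.Agent.Results.MP_2ec8a3_nt.RadicalSet.Regular M r} ∧ (r : ℝ) ≤ X}.Finite ∧
        ({r | r ∈ {r : ℕ | (∃ t, Pool.Agent.Results.MP_2ec8a3_nt.RadicalSet.IsTriple t ∧
          Pool.Agent.Results.MP_2ec8a3_nt.RadicalSet.rad3 t = r) ∧
          ¬ Pool.Agent.Results.MP_2ec8a3_nt.RadicalSet.Regular M r} ∧ (r : ℝ) ≤ X}.ncard : ℝ) ≤
          C * X ^ (2 / 3 - min ν (2 / 3) + ε) := by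
      intro ε hε
      refine ⟨C, fun X hX => ?_⟩
      have hset : {r | r ∈ {r : ℕ | (∃ t, Pool.Agent.Results.MP_2ec8a3_nt.RadicalSet.IsTriple t ∧
          Pool.Agent.Results.MP_2ec8a3_nt.RadicalSet.rad3 t = r) ∧
          ¬ Pool.Agent.Results.MP_2ec8a3_nt.RadicalSet.Regular M r} ∧ (r : ℝ) ≤ X} =
          {r | r ∈ Pool.Agent.Results.MP_2ec8a3_nt.RadicalSet.radicals X ∧
            ¬ Pool.Agent.Results.MP_2ec8a3_nt.RadicalSet.Regular M r} := by
        ext r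
        constructor
        · rintro ⟨⟨b1, b2⟩, b3⟩
          exact ⟨⟨b3, b1⟩, b2⟩
        · rintro ⟨⟨b1, b2⟩, b3⟩
          exact ⟨⟨b2, b3⟩, b1⟩
      rw [hset]
      refine ⟨(Pool.Agent.Results.MP_2ec8a3_nt.RadicalSet.result.1 X).2.subset fun r hr => hr.1,
        (h X hX).1.trans ?_⟩
      refine mul_le_mul_of_nonneg_left ?_ hC.le
      exact Real.rpow_le_rpow_of_exponent_le hX (by linarith [min_le_left ν (2 / 3)])
    obtain ⟨E, h1, h2⟩ := Pool.Agent.Y854.GM.windows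
      {r : ℕ | (∃ t, Pool.Agent.Results.MP_2ec8a3_nt.RadicalSet.IsTriple t ∧
        Pool.Agent.Results.MP_2ec8a3_nt.RadicalSet.rad3 t = r) ∧
        ¬ Pool.Agent.Results.MP_2ec8a3_nt.RadicalSet.Regular M r} (fun r : ℕ => (r : ℝ)) (θ := θ)
      (s := 2 / 3 - min ν (2 / 3)) hv hτ hE (by linarith [min_le_right ν (2 / 3)]) hθ hcount
    refine ⟨E, h1, fun α hα hαE => ?_⟩
    obtain ⟨n₀, hn⟩ := h2 α hα hαE
    refine ⟨n₀, fun n hn1 a b c ht hab hw => ?_⟩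
    obtain ⟨a1, a2, a3, a4⟩ := ht
    have hrad : Pool.Agent.Results.MP_2ec8a3_nt.RadicalSet.rad3 (a, b) = R (a * b * c) := by
      rw [← a4]
      rfl
    have htr : Pool.Agent.Results.MP_2ec8a3_nt.RadicalSet.IsTriple (a, b) := ⟨a1, hab, a3⟩
    have hreg : Pool.Agent.Results.MP_2ec8a3_nt.RadicalSet.Regular M (R (a * b * c)) := by
      by_contra hcon
      exact absurd (hn n hn1 (R (a * b * c)) ⟨⟨(a, b), htr, hrad⟩, hcon⟩) (not_lt.2 hw)
    obtain ⟨t, t1, t2, t3, t4⟩ := hreg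
    have e1 : (a, b) = t := t3 (a, b) htr hrad
    subst e1
    refine ⟨?_, fun a' b' c' ht' hab' hr => ?_⟩
    · have t5 : ((a + b : ℕ) : ℝ) < (R (a * b * c) : ℝ) ^ M := t4
      rw [a4] at t5
      exact t5
    · obtain ⟨b1, b2, b3, b4⟩ := ht'
      have e2 : (a', b') = (a, b) := t3 (a', b') ⟨b1, hab', b3⟩ (by
        rw [← hr, ← b4]
        rfl)
      have e3 : a' = a := congrArg Prod.fst e2
      have e4 : b' = b := congrArg Prod.snd e2
      exact ⟨e3, e4, by rw [← b4, ← a4, e3, e4]⟩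

end Pool.Agent.Results.MP_7aad9f_nt.NoExceptionsInWindows
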