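import Pool.Agent.X100.Mx.Abc
import Pool.Agent.TH498.HF.T1

/-!
# abc triples in one-parameter families, ordered by their radical, of any height

A one-parameter family of abc triples is given by two binary forms `A`, `B` of degree `n` without a
common zero: its triples are the coprime `(a, b, a + b)` proportional to
`(A(s, t), B(s, t), A(s, t) + B(s, t))`. If at least three points of the projective line over `ℚ` are
zeros of `A B (A + B)`, the number of the triples of the family with radical at most `R`, of whatever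
height, is at most `R ^ (2 / w + o(1))`, `w` the number of the irreducible factors of `A B (A + B)`,
those of degree at least three counted twice. For instance the triples two of whose members are `n`-th
powers, `a = x ^ n`, `c = z ^ n`.
-/

set_option autoImplicit false

namespace Pool.Agent.Results.MP_7aad9f_nt.PolynomialTriplesAllHeights

open Finset Polynomial

/-- the radical: the product of the primes dividing `m` -/
def radical (m : ℤ) : ℕ := ∏ p ∈ m.natAbs.primeFactors, p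

/-- the value at `(s, t)` of the binary form `∑ j, f_j s ^ j t ^ (n - j)` of degree `n` -/
def value (f : ℤ[X]) (n : ℕ) (s t : ℤ) : ℤ :=
  ∑ j ∈ range (n + 1), f.coeff j * s ^ j * t ^ (n - j)

/-- `A` and `B`, viewed as binary forms of degree `n ≥ 1`, have no common zero on the projective
line, and the form `A B (A + B)` of degree `3 n` is divisible by a form without multiple factors
which is the product of the forms `f_i` of degrees `d_i ≥ 1` (a constant `f_i` with `d_i = 1` is the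
linear form that vanishes at infinity); at least three of the `f_i` are linear -/
def IsFamily (A B : ℤ[X]) (n m : ℕ) (f : Fin m → ℤ[X]) (d : Fin m → ℕ) : Prop :=
  1 ≤ n ∧ A.natDegree ≤ n ∧ B.natDegree ≤ n ∧ (A.natDegree = n ∨ B.natDegree = n) ∧
  IsCoprime (A.map (Int.castRingHom ℚ)) (B.map (Int.castRingHom ℚ)) ∧
  (∀ i, (f i).natDegree ≤ d i ∧ 1 ≤ d i) ∧
  Squarefree ((∏ i, f i).map (Int.castRingHom ℚ)) ∧
  ∑ i, d i ≤ (∏ i, f i).natDegree + 1 ∧
  (∃ G : ℤ[X], (∏ i, f i) * G = A * B * (A + B) ∧ G.natDegree + ∑ i, d i ≤ 3 * n) ∧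
  3 ≤ (univ.filter (fun i => d i = 1)).card

/-- the number of the factors, those of degree at least three counted twice -/
def weight {m : ℕ} (d : Fin m → ℕ) : ℕ := ∑ i, if d i ≤ 2 then 1 else 2

/-- the abc triples `(a, b, a + b)` of the family, `a`, `b` and `a + b` nonzero coprime integers of
either sign, with radical at most `R`, written `(a, b)`; there is no condition on the height -/
def Triples (A B : ℤ[X]) (n : ℕ) (R : ℝ) : Set (ℤ × ℤ) :=
  {q | IsCoprime q.1 q.2 ∧ q.1 * q.2 * (q.1 + q.2) ≠ 0 ∧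
    (∃ s t : ℤ, IsCoprime s t ∧ q.1 * value B n s t = q.2 * value A n s t) ∧
    (radical (q.1 * q.2 * (q.1 + q.2)) : ℝ) ≤ R}

/-- those which violate `max (|a|, |b|, |a + b|) ≤ K rad ^ κ` -/
def Violating (A B : ℤ[X]) (n : ℕ) (κ K R : ℝ) : Set (ℤ × ℤ) :=
  {q | q ∈ Triples A B n R ∧ K * (radical (q.1 * q.2 * (q.1 + q.2)) : ℝ) ^ κ <
    max (max |(q.1 : ℝ)| |(q.2 : ℝ)|) |((q.1 + q.2 : ℤ) : ℝ)|}

/-- the pairs `(x, z)` of coprime integers such that `x ^ n + (z ^ n - x ^ n) = z ^ n` is an abc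
triple, with nonzero members of either sign, of radical at most `R` -/
def PowerTriples (n : ℕ) (R : ℝ) : Set (ℤ × ℤ) :=
  {p | IsCoprime p.1 p.2 ∧ p.1 ^ n * (p.2 ^ n - p.1 ^ n) * p.2 ^ n ≠ 0 ∧
    (radical (p.1 ^ n * (p.2 ^ n - p.1 ^ n) * p.2 ^ n) : ℝ) ≤ R}

/-- two plus the number of the divisors of `n`, the divisors other than `1, 2, 3, 4, 6` counted
twice (they are those with `φ(δ) > 2`) -/
def powerWeight (n : ℕ) : ℕ := 2 + ∑ δ ∈ n.divisors, if Nat.totient δ ≤ 2 then 1 else 2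

theorem radical_eq (n : ℕ) (hn : 1 ≤ n) (x z : ℤ) (h : x ^ n * (z ^ n - x ^ n) * z ^ n ≠ 0) :
    x * z * (x ^ n - z ^ n) ≠ 0 ∧
    radical (x ^ n * (z ^ n - x ^ n) * z ^ n) = radical (x * z * (x ^ n - z ^ n)) := by
  have hn0 : n ≠ 0 := by omega
  have hx : x ≠ 0 := by
    rintro rfl
    simp [hn0] at h
  have hz : z ≠ 0 := by
    rintro rfl
    simp [hn0] at h
  have hd : x ^ n - z ^ n ≠ 0 := by
    intro h0
    apply h
    have : z ^ n - x ^ n = 0 := by linarith
    rw [this]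
    ring
  have h2 : x * z * (x ^ n - z ^ n) ≠ 0 := mul_ne_zero (mul_ne_zero hx hz) hd
  refine ⟨h2, ?_⟩
  have e : (x ^ n * (z ^ n - x ^ n) * z ^ n).natAbs.primeFactors =
      (x * z * (x ^ n - z ^ n)).natAbs.primeFactors := by
    have c1 : (x ^ n * (z ^ n - x ^ n) * z ^ n).natAbs =
        x.natAbs ^ n * (x ^ n - z ^ n).natAbs * z.natAbs ^ n := by
      rw [Int.natAbs_mul, Int.natAbs_mul, Int.natAbs_pow, Int.natAbs_pow,
        ← Int.natAbs_neg (z ^ n - x ^ n), neg_sub]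
    have c2 : (x * z * (x ^ n - z ^ n)).natAbs =
        x.natAbs * z.natAbs * (x ^ n - z ^ n).natAbs := by
      rw [Int.natAbs_mul, Int.natAbs_mul]
    have x0 : x.natAbs ≠ 0 := Int.natAbs_ne_zero.mpr hx
    have z0 : z.natAbs ≠ 0 := Int.natAbs_ne_zero.mpr hz
    have d0 : (x ^ n - z ^ n).natAbs ≠ 0 := Int.natAbs_ne_zero.mpr hd
    rw [c1, c2, Nat.primeFactors_mul (by positivity) (by positivity),
      Nat.primeFactors_mul (by positivity) d0, Nat.primeFactors_mul (by positivity) d0,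
      Nat.primeFactors_mul x0 z0, Nat.primeFactors_pow _ hn0, Nat.primeFactors_pow _ hn0]
    ext p
    simp only [mem_union]
    tauto
  unfold radical
  rw [e]

/-- **Families of abc triples by radical, all heights.**
(1) Let `A`, `B`, `n`, `f`, `d` be as in `IsFamily`. There are `C` and `e` such that for `R ≥ 1` at
most `C R ^ (2 / weight d) (1 + log R) ^ e` abc triples of the family, of whatever height, have
radical at most `R`; in particular, for all `κ` and `K` at most so many of them violate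
`max (|a|, |b|, |c|) ≤ K rad ^ κ`.
(2) For `n ≥ 1` there are `c, C > 0`, `e` and `R₀` such that for `R ≥ 1` at most
`C R ^ (2 / powerWeight n) (1 + log R) ^ e` pairs of coprime integers `x`, `z` give an abc triple
`x ^ n + b = z ^ n` of radical at most `R`, and for `R ≥ R₀` at least `c R ^ (2 / (n + 2))` do. -/
theorem result :
    (∀ (A B : ℤ[X]) (n m : ℕ) (f : Fin m → ℤ[X]) (d : Fin m → ℕ), IsFamily A B n m f d →
      ∃ (C : ℝ) (e : ℕ), 0 < C ∧ ∀ R : ℝ, 1 ≤ R → (Triples A B n R).Finite ∧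
        ((Triples A B n R).ncard : ℝ) ≤
          C * R ^ ((2 : ℝ) / (weight d : ℝ)) * (1 + Real.log R) ^ e ∧
        ∀ κ K : ℝ, (Violating A B n κ K R).Finite ∧
          ((Violating A B n κ K R).ncard : ℝ) ≤
            C * R ^ ((2 : ℝ) / (weight d : ℝ)) * (1 + Real.log R) ^ e) ∧
    ∀ n : ℕ, 1 ≤ n → ∃ (c C R₀ : ℝ) (e : ℕ), 0 < c ∧ 0 < C ∧
      (∀ R : ℝ, 1 ≤ R → (PowerTriples n R).Finite ∧
        ((PowerTriples n R).ncard : ℝ) ≤
          C * R ^ ((2 : ℝ) / (powerWeight n : ℝ)) * (1 + Real.log R) ^ e) ∧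
      ∀ R : ℝ, R₀ ≤ R → c * R ^ ((2 : ℝ) / ((n : ℝ) + 2)) ≤ ((PowerTriples n R).ncard : ℝ) := by
  refine ⟨?_, ?_⟩
  · rintro A B n m f d ⟨h1, h2, h3, h4, h5, h6, h7, h8, ⟨G, h9, h10⟩, h11⟩
    obtain ⟨C, e, hC, h⟩ := Pool.Agent.X100.Mx.triples A B n h1 h2 h3 h4 h5 f d
      (fun i => (h6 i).1) (fun i => (h6 i).2) h7 h8 G h9 h10 h11
    refine ⟨C, e, hC, fun R hR => ?_⟩
    obtain ⟨g1, g2⟩ := Pool.Agent.TH498.HF.fin_of_bound (Triples A B n R)
      (C * R ^ ((2 : ℝ) / (weight d : ℝ)) * (1 + Real.log R) ^ e) (fun s hs => by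
        refine h R hR s fun q hq => ?_
        obtain ⟨k1, k2, ⟨s, t, k3, k4⟩, k5⟩ := hs hq
        exact ⟨k1, k2, ⟨s, t, k3, k4⟩, k5⟩)
    refine ⟨g1, g2, fun κ K => ?_⟩
    have hsub : Violating A B n κ K R ⊆ Triples A B n R := fun q hq => hq.1
    refine ⟨g1.subset hsub, le_trans ?_ g2⟩
    exact_mod_cast Set.ncard_le_ncard hsub g1
  · intro n hn
    obtain ⟨C, e, hC, h⟩ := Pool.Agent.X100.Mx.powers n hn
    have hup : ∀ R : ℝ, 1 ≤ R → (PowerTriples n R).Finite ∧
        ((PowerTriples n R).ncard : ℝ) ≤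
          C * R ^ ((2 : ℝ) / (powerWeight n : ℝ)) * (1 + Real.log R) ^ e := by
      intro R hR
      refine Pool.Agent.TH498.HF.fin_of_bound _ _ fun s hs => ?_
      refine h R hR s fun p hp => ?_
      obtain ⟨k1, k2, k3⟩ := hs hp
      obtain ⟨k4, k5⟩ := radical_eq n hn p.1 p.2 k2
      refine ⟨k1, k4, ?_⟩
      rw [k5] at k3
      exact k3
    refine ⟨1 / 32, C, 6 ^ (n + 2), e, by norm_num, hC, hup, fun R hR => ?_⟩
    have h61 : (1 : ℝ) ≤ 6 ^ (n + 2) := one_le_pow₀ (by norm_num)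
    have hR1 : 1 ≤ R := h61.trans hR
    have hR0 : 0 < R := by linarith
    have hn2 : (0 : ℝ) < (n : ℝ) + 2 := by positivity
    set Y : ℝ := R ^ (1 / ((n : ℝ) + 2)) with hY
    have hY6 : 6 ≤ Y := by
      have h1 : ((6 : ℝ) ^ (n + 2)) ^ (1 / ((n : ℝ) + 2)) ≤ Y :=
        Real.rpow_le_rpow (by positivity) hR (by positivity)
      rw [← Real.rpow_natCast, ← Real.rpow_mul (by norm_num)] at h1
      have h2 : ((n + 2 : ℕ) : ℝ) * (1 / ((n : ℝ) + 2)) = 1 := by
        push_cast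
        field_simp
      rwa [h2, Real.rpow_one] at h1
    have hYn : Y ^ (n + 2) = R := by
      rw [hY, ← Real.rpow_natCast, ← Real.rpow_mul hR0.le]
      have h2 : 1 / ((n : ℝ) + 2) * ((n + 2 : ℕ) : ℝ) = 1 := by
        push_cast
        field_simp
      rw [h2, Real.rpow_one]
    have hY2 : R ^ ((2 : ℝ) / ((n : ℝ) + 2)) = Y ^ 2 := by
      rw [hY, ← Real.rpow_natCast, ← Real.rpow_mul hR0.le]
      congr 1
      push_cast
      ring
    set H : ℕ := ⌊Y⌋₊ with hH
    have hHle : (H : ℝ) ≤ Y := Nat.floor_le (by linarith)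
    have hHge : Y - 1 ≤ H := by
      have := Nat.lt_floor_add_one Y
      rw [← hH] at this
      linarith
    have hcp := Pool.Agent.TH498.HF.cpr_card H
    let T : Finset (ℤ × ℤ) := ((Pool.Agent.TH498.HF.cpr H).erase (1, 1)).image
      (fun p : ℕ × ℕ => ((p.1 : ℤ), (p.2 : ℤ)))
    have hTcard : ((Pool.Agent.TH498.HF.cpr H).card : ℝ) - 1 ≤ (T.card : ℝ) := by
      have hinj : Function.Injective (fun p : ℕ × ℕ => ((p.1 : ℤ), (p.2 : ℤ))) := by
        rintro ⟨a, b⟩ ⟨a', b'⟩ hab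
        simp only [Prod.mk.injEq, Nat.cast_inj] at hab
        exact Prod.ext hab.1 hab.2
      have h1 : T.card = ((Pool.Agent.TH498.HF.cpr H).erase (1, 1)).card :=
        card_image_of_injective _ hinj
      have h2 := pred_card_le_card_erase (s := Pool.Agent.TH498.HF.cpr H) (a := ((1 : ℕ), (1 : ℕ)))
      rw [← h1] at h2
      have h3 : (Pool.Agent.TH498.HF.cpr H).card ≤ T.card + 1 := by omega
      have h4 : ((Pool.Agent.TH498.HF.cpr H).card : ℝ) ≤ (T.card : ℝ) + 1 := by exact_mod_cast h3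
      linarith
    have hTsub : (T : Set (ℤ × ℤ)) ⊆ PowerTriples n R := by
      intro p hp
      rw [mem_coe, mem_image] at hp
      obtain ⟨⟨x, z⟩, hxz, rfl⟩ := hp
      obtain ⟨hne, hxz⟩ := mem_erase.mp hxz
      obtain ⟨h1, h2⟩ := mem_filter.mp hxz
      obtain ⟨h3, h4⟩ := mem_product.mp h1
      rw [mem_Ioc] at h3 h4
      simp only at h2 h3 h4
      have hxne : x ≠ z := by
        rintro rfl
        rw [Nat.coprime_self] at h2
        exact hne (by rw [h2])
      have hpow : (x : ℤ) ^ n ≠ (z : ℤ) ^ n := by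
        intro h5
        have h6 : x ^ n = z ^ n := by exact_mod_cast h5
        exact hxne (Nat.pow_left_injective (by omega : n ≠ 0) h6)
      have hx0 : (x : ℤ) ≠ 0 := by exact_mod_cast (by omega : x ≠ 0)
      have hz0 : (z : ℤ) ≠ 0 := by exact_mod_cast (by omega : z ≠ 0)
      have hne2 : (x : ℤ) ^ n * ((z : ℤ) ^ n - (x : ℤ) ^ n) * (z : ℤ) ^ n ≠ 0 :=
        mul_ne_zero (mul_ne_zero (pow_ne_zero _ hx0) (sub_ne_zero.mpr hpow.symm))
          (pow_ne_zero _ hz0)
      refine ⟨Nat.isCoprime_iff_coprime.mpr h2, hne2, ?_⟩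
      obtain ⟨k1, k2⟩ := radical_eq n hn (x : ℤ) (z : ℤ) hne2
      change (radical ((x : ℤ) ^ n * ((z : ℤ) ^ n - (x : ℤ) ^ n) * (z : ℤ) ^ n) : ℝ) ≤ R
      rw [k2]
      have h7 : radical ((x : ℤ) * z * ((x : ℤ) ^ n - (z : ℤ) ^ n)) ≤
          ((x : ℤ) * z * ((x : ℤ) ^ n - (z : ℤ) ^ n)).natAbs :=
        Nat.le_of_dvd (Nat.pos_of_ne_zero (Int.natAbs_ne_zero.mpr k1)) (Nat.prod_primeFactors_dvd _)
      have h8 : ((((x : ℤ) * z * ((x : ℤ) ^ n - (z : ℤ) ^ n)).natAbs : ℕ) : ℝ) =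
          |((x : ℝ) * z * ((x : ℝ) ^ n - (z : ℝ) ^ n))| := by
        rw [Nat.cast_natAbs, Int.cast_abs]
        push_cast
        rfl
      have hxH : (x : ℝ) ≤ Y := le_trans (by exact_mod_cast h3.2) hHle
      have hzH : (z : ℝ) ≤ Y := le_trans (by exact_mod_cast h4.2) hHle
      have hx' : (0 : ℝ) ≤ x := Nat.cast_nonneg x
      have hz' : (0 : ℝ) ≤ z := Nat.cast_nonneg z
      have h9 : |(x : ℝ) ^ n - (z : ℝ) ^ n| ≤ Y ^ n := by
        have a1 : (x : ℝ) ^ n ≤ Y ^ n := pow_le_pow_left₀ hx' hxH n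
        have a2 : (z : ℝ) ^ n ≤ Y ^ n := pow_le_pow_left₀ hz' hzH n
        have a3 : 0 ≤ (x : ℝ) ^ n := by positivity
        have a4 : 0 ≤ (z : ℝ) ^ n := by positivity
        rw [abs_le]
        constructor <;> linarith
      calc (radical ((x : ℤ) * z * ((x : ℤ) ^ n - (z : ℤ) ^ n)) : ℝ) ≤
            |((x : ℝ) * z * ((x : ℝ) ^ n - (z : ℝ) ^ n))| := by
            rw [← h8]
            exact_mod_cast h7
        _ = x * z * |(x : ℝ) ^ n - (z : ℝ) ^ n| := by
            rw [abs_mul, abs_mul, abs_of_nonneg hx', abs_of_nonneg hz']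
        _ ≤ Y * Y * Y ^ n := by gcongr
        _ = R := by rw [← hYn]; ring
    have h5 : (T.card : ℝ) ≤ ((PowerTriples n R).ncard : ℝ) := by
      have h6 := Set.ncard_le_ncard hTsub (hup R hR1).1
      rw [Set.ncard_coe_finset] at h6
      exact_mod_cast h6
    rw [hY2]
    nlinarith

end Pool.Agent.Results.MP_7aad9f_nt.PolynomialTriplesAllHeights
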