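import Mathlib
import Pool.Agent.X4.MK.Nat

/-!
# Many abc triples with restricted radicals of the single members

Mazur (Questions about powers of numbers, 2000) asked for the number of the triples of coprime
integers `a + b = c ≤ X` with `R a ≤ a ^ α`, `R b ≤ b ^ β`, `R c ≤ c ^ γ`, `R` the radical. By the abc
conjecture it is bounded for `α + β + γ < 1`; it is conjectured to be `X ^ (α + β + γ - 1 + o(1))` for
`α + β + γ ≥ 1`, and D. Kane proved this for `α + β + γ ≥ 2`. Here the lower bound is proved for all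
`α + β + γ > 1`, that is, in the whole range complementary to the abc conjecture (up to the boundary
plane), even for triples in a fixed residue class and with `a / c` in a fixed interval.

The triples are the points of lattices `p ^ i ∣ a`, `q ^ j ∣ b`, `r ^ k ∣ c` with three fixed primes;
Ridout's theorem shows that these lattices have no short vectors.
-/

set_option autoImplicit false

namespace Pool.Agent.Results.MP_7aad9f_nt.RestrictedRadicalSizes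

open Pool.Agent.X4.MK

/-- the radical: the product of the distinct primes dividing `m` -/
def R (m : ℕ) : ℕ := ∏ p ∈ m.primeFactors, p

/-- the triples `(a, b, c)` of coprime positive integers with `a + b = c ≤ X` and `R a ≤ a ^ α`,
`R b ≤ b ^ β`, `R c ≤ c ^ γ`, for which moreover `θ₁ * c < a < θ₂ * c`, `a ≡ a₀` and `b ≡ b₀`
modulo `m` -/
def Triples (α β γ θ₁ θ₂ : ℝ) (m a₀ b₀ : ℕ) (X : ℝ) : Set (ℕ × ℕ × ℕ) :=
  {t | 0 < t.1 ∧ 0 < t.2.1 ∧ Nat.Coprime t.1 t.2.1 ∧ t.1 + t.2.1 = t.2.2 ∧ (t.2.2 : ℝ) ≤ X ∧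
    (R t.1 : ℝ) ≤ (t.1 : ℝ) ^ α ∧ (R t.2.1 : ℝ) ≤ (t.2.1 : ℝ) ^ β ∧
    (R t.2.2 : ℝ) ≤ (t.2.2 : ℝ) ^ γ ∧ θ₁ * t.2.2 < t.1 ∧ (t.1 : ℝ) < θ₂ * t.2.2 ∧
    t.1 ≡ a₀ [MOD m] ∧ t.2.1 ≡ b₀ [MOD m]}

/-- **Main theorem.** Let `α, β, γ ∈ (0, 1]` with `α + β + γ > 1`, let `0 ≤ θ₁ < θ₂ ≤ 1`, let `m ≥ 1`
and let `a₀`, `b₀` have no common prime factor with `m`. Then for every `δ > 0` and all large `X`
there are at least `X ^ (α + β + γ - 1 - δ)` triples `(a, b, c)` of coprime positive integers with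
`a + b = c ≤ X` and `R a ≤ a ^ α`, `R b ≤ b ^ β`, `R c ≤ c ^ γ`, such that `θ₁ < a / c < θ₂` and
`a ≡ a₀`, `b ≡ b₀` modulo `m`. -/
theorem result (α β γ : ℝ) (hα : 0 < α) (hα1 : α ≤ 1) (hβ : 0 < β) (hβ1 : β ≤ 1) (hγ : 0 < γ)
    (hγ1 : γ ≤ 1) (hs : 1 < α + β + γ) (θ₁ θ₂ : ℝ) (h0 : 0 ≤ θ₁) (h12 : θ₁ < θ₂) (h1 : θ₂ ≤ 1)
    (m a₀ b₀ : ℕ) (hm : 0 < m) (hab : Nat.Coprime (Nat.gcd a₀ b₀) m) (δ : ℝ) (hδ : 0 < δ) :
    ∃ X₀ : ℝ, ∀ X : ℝ, X₀ ≤ X →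
      X ^ (α + β + γ - 1 - δ) ≤ ((Triples α β γ θ₁ θ₂ m a₀ b₀ X).ncard : ℝ) := by
  classical
  obtain ⟨p, q, r, hp, hq, hr, hpq, hpr, hqr, hpm, hqm, hrm⟩ := exists_primes m hm
  have hab' : ∀ ℓ : ℕ, ℓ.Prime → ℓ ∣ m → ¬ ((ℓ : ℤ) ∣ (a₀ : ℤ) ∧ (ℓ : ℤ) ∣ (b₀ : ℤ)) := by
    rintro ℓ hℓ h2 ⟨h3, h4⟩
    have h5 : ℓ ∣ Nat.gcd a₀ b₀ :=
      Nat.dvd_gcd (Int.natCast_dvd_natCast.1 h3) (Int.natCast_dvd_natCast.1 h4)
    exact Nat.not_coprime_of_dvd_of_dvd hℓ.one_lt h5 h2 hab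
  obtain ⟨X1, HX1⟩ := core p q r m hp hq hr hpq hpr hqr hm hpm hqm hrm a₀ b₀ hab' α β γ hα hβ hγ hs
    θ₁ θ₂ h0 h12 h1 (δ / 2) (by positivity)
  have hp0 : (0 : ℝ) < p := by exact_mod_cast hp.pos
  have hq0 : (0 : ℝ) < q := by exact_mod_cast hq.pos
  have hr0 : (0 : ℝ) < r := by exact_mod_cast hr.pos
  have hev := ev_pow (show 0 < 1 / ((p : ℝ) ^ 2 * (q : ℝ) ^ 2 * (r : ℝ) ^ 2) by positivity)
    (show α + β + γ - 1 - δ < α + β + γ - 1 - δ / 2 by linarith)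
  obtain ⟨X2, HX2⟩ := Filter.eventually_atTop.1 hev
  refine ⟨max (max X1 X2) 1, fun X hX => ?_⟩
  have hX1 : X1 ≤ X := (le_max_left _ _).trans ((le_max_left _ _).trans hX)
  have hX2 : X2 ≤ X := (le_max_right _ _).trans ((le_max_left _ _).trans hX)
  have hX3 : 1 ≤ X := (le_max_right _ _).trans hX
  have hX0 : 0 < X := by linarith
  obtain ⟨e1, he1, i1, j1⟩ := exists_exp hp (Real.one_le_rpow hX3 (show 0 ≤ 1 - α by linarith))
  obtain ⟨e2, he2, i2, j2⟩ := exists_exp hq (Real.one_le_rpow hX3 (show 0 ≤ 1 - β by linarith))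
  obtain ⟨e3, he3, i3, j3⟩ := exists_exp hr (Real.one_le_rpow hX3 (show 0 ≤ 1 - γ by linarith))
  obtain ⟨F, hF, hFc⟩ := HX1 X hX1 e1 e2 e3 he1 he2 he3 j1 j2 j3
  have hsub : ((F.image toT : Finset (ℕ × ℕ × ℕ)) : Set (ℕ × ℕ × ℕ)) ⊆
      Triples α β γ θ₁ θ₂ m a₀ b₀ X := by
    intro t ht
    rw [Finset.mem_coe, Finset.mem_image] at ht
    obtain ⟨⟨a, b⟩, hf, rfl⟩ := ht
    obtain ⟨g1, g2, g3, g4, g5, g6, g7, ⟨g8, g9, g10⟩, g11, g12⟩ := hF _ hf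
    simp only at g1 g2 g3 g4 g5 g6 g7 g8 g9 g10 g11 g12
    lift a to ℕ using g1.le
    lift b to ℕ using g2.le
    have k1 : 0 < a := by exact_mod_cast g1
    have k2 : 0 < b := by exact_mod_cast g2
    have e : toT ((a : ℤ), (b : ℤ)) = (a, b, a + b) := by
      have e1 : ((a : ℤ) + b).toNat = a + b := by omega
      simp only [toT, Int.toNat_natCast, e1]
    rw [e]
    have k3 : ((a + b : ℕ) : ℝ) ≤ X := by push_cast; exact_mod_cast g4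
    have k4 : (a : ℝ) ≤ X := by
      refine le_trans ?_ k3
      push_cast
      linarith [(Nat.cast_nonneg b : (0 : ℝ) ≤ b)]
    have k5 : (b : ℝ) ≤ X := by
      refine le_trans ?_ k3
      push_cast
      linarith [(Nat.cast_nonneg a : (0 : ℝ) ≤ a)]
    refine ⟨k1, k2, Nat.isCoprime_iff_coprime.1 g7, rfl, k3, ?_, ?_, ?_, ?_, ?_, ?_, ?_⟩
    · exact rd_le_rpow hp he1.ne' k1 (Int.natCast_dvd_natCast.1 g8) k4 hα1 i1
    · exact rd_le_rpow hq he2.ne' k2 (Int.natCast_dvd_natCast.1 g9) k5 hβ1 i2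
    · refine rd_le_rpow hr he3.ne' (show 0 < a + b by omega) ?_ k3 hγ1 i3
      exact_mod_cast g10
    · push_cast; exact_mod_cast g5
    · push_cast; exact_mod_cast g6
    · have := (Int.modEq_iff_dvd.2 g11).symm
      exact Int.natCast_modEq_iff.1 this
    · have := (Int.modEq_iff_dvd.2 g12).symm
      exact Int.natCast_modEq_iff.1 this
  have hfin : (Triples α β γ θ₁ θ₂ m a₀ b₀ X).Finite := by
    have hf : (Set.Iic ⌊X⌋₊ ×ˢ (Set.Iic ⌊X⌋₊ ×ˢ Set.Iic ⌊X⌋₊) : Set (ℕ × ℕ × ℕ)).Finite :=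
      (Set.finite_Iic _).prod ((Set.finite_Iic _).prod (Set.finite_Iic _))
    refine hf.subset ?_
    rintro ⟨a, b, c⟩ ⟨-, -, -, h4, h5, -⟩
    simp only at h4 h5
    have h6 : c ≤ ⌊X⌋₊ := Nat.le_floor h5
    refine ⟨?_, ?_, ?_⟩ <;> simp only [Set.mem_Iic] <;> omega
  have hcard : (F.image toT).card = F.card := by
    apply Finset.card_image_of_injOn
    intro f hf g hg hfg
    have hf' := hF f hf
    have hg' := hF g hg
    exact toT_inj hf'.apos hf'.bpos hg'.apos hg'.bpos hfg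
  have hle : (F.card : ℝ) ≤ ((Triples α β γ θ₁ θ₂ m a₀ b₀ X).ncard : ℝ) := by
    have := Set.ncard_le_ncard hsub hfin
    rw [Set.ncard_coe_finset, hcard] at this
    exact_mod_cast this
  refine le_trans ?_ (hFc.trans hle)
  refine (HX2 X hX2).trans ?_
  have hDK : ((p ^ e1 * q ^ e2 * r ^ e3 : ℕ) : ℝ) ≤
      (p : ℝ) ^ 2 * (q : ℝ) ^ 2 * (r : ℝ) ^ 2 * X ^ (3 - (α + β + γ)) := by
    rw [Nat.cast_mul, Nat.cast_mul]
    calc _ ≤ ((p : ℝ) ^ 2 * X ^ (1 - α)) * ((q : ℝ) ^ 2 * X ^ (1 - β)) *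
          ((r : ℝ) ^ 2 * X ^ (1 - γ)) := by gcongr
      _ = (p : ℝ) ^ 2 * (q : ℝ) ^ 2 * (r : ℝ) ^ 2 * (X ^ (1 - α) * X ^ (1 - β) * X ^ (1 - γ)) := by
          ring
      _ = _ := by
          rw [← Real.rpow_add hX0, ← Real.rpow_add hX0]
          congr 2
          ring
  have hD0 : (0 : ℝ) < ((p ^ e1 * q ^ e2 * r ^ e3 : ℕ) : ℝ) := by
    have := Nat.mul_pos (Nat.mul_pos (pow_pos hp.pos e1) (pow_pos hq.pos e2)) (pow_pos hr.pos e3)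
    exact_mod_cast this
  rw [le_div_iff₀ hD0]
  calc 1 / ((p : ℝ) ^ 2 * (q : ℝ) ^ 2 * (r : ℝ) ^ 2) * X ^ (α + β + γ - 1 - δ / 2) *
        ((p ^ e1 * q ^ e2 * r ^ e3 : ℕ) : ℝ) ≤
      1 / ((p : ℝ) ^ 2 * (q : ℝ) ^ 2 * (r : ℝ) ^ 2) * X ^ (α + β + γ - 1 - δ / 2) *
        ((p : ℝ) ^ 2 * (q : ℝ) ^ 2 * (r : ℝ) ^ 2 * X ^ (3 - (α + β + γ))) := by gcongr
    _ = X ^ (α + β + γ - 1 - δ / 2) * X ^ (3 - (α + β + γ)) := by field_simp
    _ = X ^ (2 - δ / 2) := by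
        rw [← Real.rpow_add hX0]
        congr 1
        ring

end Pool.Agent.Results.MP_7aad9f_nt.RestrictedRadicalSizes
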